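import Mathlib
import Pool.Agent.X285.HN.Fin

/-!
# Non-ample Hilbertian fields of any characteristic over which all embedding problems are solvable

Every field `M`, of any characteristic and finite or infinite, is algebraically closed in a field `K`
of cardinality `max(#M, ℵ₀)` such that `K` is Hilbertian and every finite embedding problem over `K`,
split or not, has a proper solution; so the answer to the question (which asks for the split
embedding problems) is positive for `K`. But `K` is not ample: every ample subfield of `K` is
contained in `M`, and so are all solutions in `K` of the Fermat equations `a ^ N + b ^ N = 1`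
(`N ≥ 3` not divisible by the characteristic).

In particular for `p = 0` and for every prime `p` there is a countable such field `K` of
characteristic `p` which has no ample subfield at all.
-/

set_option autoImplicit false

open scoped Cardinal

namespace Pool.Agent.Results.MP_e9d732_al.NonAmpleAnyChar

/-- `K` is ample (large), in the form: `K` is existentially closed in the field `K((t))` of Laurent
series, that is every finite system of polynomial equations over `K` which has a solution in `K((t))`
has a solution in `K`. -/
def IsAmple (K : Type) [Field K] : Prop :=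
  ∀ (n : ℕ) (s : Finset (MvPolynomial (Fin n) K)),
    (∃ x : Fin n → LaurentSeries K, ∀ p ∈ s, MvPolynomial.aeval x p = 0) →
    ∃ y : Fin n → K, ∀ p ∈ s, MvPolynomial.eval y p = 0

/-- `K` is Hilbertian, in the form of the frozen statement `S03429`: for every monic irreducible
`f ∈ K[T][X]` which is separable in `X`, and every `g ≠ 0` in `K[T]`, there is `a ∈ K` with
`g(a) ≠ 0` such that `f(a, X)` is irreducible. -/
def IsHilbertian (K : Type) [Field K] : Prop :=
  ∀ (f : Polynomial (Polynomial K)), f.Monic → Irreducible f →
    (f.map (algebraMap (Polynomial K) (FractionRing (Polynomial K)))).Separable →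
    ∀ g : Polynomial K, g ≠ 0 →
      ∃ a : K, g.eval a ≠ 0 ∧ Irreducible (f.map (Polynomial.evalRingHom a))

/-- The stronger property without separability and monicity: for every irreducible `f ∈ K[T][X]` of
positive degree in `X` there are infinitely many `a ∈ K` such that `f(a, X)` is irreducible. -/
def IsFullyHilbertian (K : Type) [Field K] : Prop :=
  ∀ f : Polynomial (Polynomial K), Irreducible f → 0 < f.natDegree →
    {a : K | Irreducible (f.map (Polynomial.evalRingHom a))}.Infinite

/-- Every finite embedding problem `α : G → Gal(F₁/K)` over `K`, split or not, has a proper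
solution (with the words of the frozen statement `S03429`, but without the section of `α`). -/
def SolvesAllEP (K : Type) [Field K] : Prop :=
  ∀ (F1 : Type) [Field F1] [Algebra K F1] [FiniteDimensional K F1] [IsGalois K F1]
    (G : Type) [Group G] [Finite G] (α : G →* (F1 ≃ₐ[K] F1)), Function.Surjective α →
    ∃ (F : Type) (_ : Field F) (_ : Algebra K F) (_ : Algebra F1 F) (_ : IsScalarTower K F1 F),
      FiniteDimensional K F ∧ IsGalois K F ∧
      ∃ γ : (F ≃ₐ[K] F) ≃* G, ∀ σ : F ≃ₐ[K] F, α (γ σ) = σ.restrictNormal F1

/-- Every field `M` is algebraically closed in a field `K` with `max(#M, ℵ₀)` elements which is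
Hilbertian, over which every finite embedding problem has a proper solution, which is not ample,
and in which all ample subfields and all solutions of `a ^ N + b ^ N = 1` (`N ≥ 3` prime to the
characteristic) lie in `M`. For `p = 0` and all primes `p` there is a countable such field of
characteristic `p` without ample subfields. -/
theorem result :
    (∀ (M : Type) [Field M], ∃ (K : Type) (_ : Field K) (_ : Algebra M K),
      #K = max #M ℵ₀ ∧ (∀ y : K, IsAlgebraic M y → y ∈ Set.range (algebraMap M K)) ∧
      IsHilbertian K ∧ IsFullyHilbertian K ∧ SolvesAllEP K ∧ ¬ IsAmple K ∧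
      (∀ (A : Type) [Field A] (j : A →+* K), IsAmple A → ∀ a, j a ∈ Set.range (algebraMap M K)) ∧
      ∀ N : ℕ, 3 ≤ N → (N : K) ≠ 0 → ∀ a b : K, a ^ N + b ^ N = 1 →
        a ∈ Set.range (algebraMap M K) ∧ b ∈ Set.range (algebraMap M K)) ∧
    ∀ p : ℕ, p = 0 ∨ p.Prime → ∃ (K : Type) (_ : Field K), CharP K p ∧ #K = ℵ₀ ∧
      IsHilbertian K ∧ IsFullyHilbertian K ∧ SolvesAllEP K ∧
      ∀ (A : Type) [Field A], IsAmple A → IsEmpty (A →+* K) := by
  have hH : ∀ (K : Type) [Field K], IsFullyHilbertian K → IsHilbertian K := by
    intro K _ h f hfm hfi _ g hg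
    classical
    have hd : 0 < f.natDegree := by
      rw [Nat.pos_iff_ne_zero]
      intro h0
      apply hfi.not_isUnit
      rw [hfm.natDegree_eq_zero.1 h0]
      exact isUnit_one
    obtain ⟨a, ha1, ha2⟩ := ((h f hfi hd).sdiff g.roots.toFinset.finite_toSet).nonempty
    refine ⟨a, fun h0 => ha2 ?_, ha1⟩
    rw [Finset.mem_coe, Multiset.mem_toFinset, Polynomial.mem_roots hg]
    exact h0
  constructor
  · intro M _
    obtain ⟨K, fK, aK, h1, h2, h3, h4, h5, h6, h7⟩ := Pool.Agent.X285.HN.mainX M
    exact ⟨K, fK, aK, h1, h2, hH K h6, h6, h7, h5, h4, h3⟩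
  · intro p hp
    obtain ⟨K, fK, h1, h2, h3, h4, h5⟩ := Pool.Agent.X285.HN.mainP p hp
    exact ⟨K, fK, h1, h2, hH K h4, h4, h5, h3⟩

end Pool.Agent.Results.MP_e9d732_al.NonAmpleAnyChar
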