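import Mathlib
import Pool.Agent.U689.EP.Fin

/-!
# Split embedding problems over Hilbertian fields have proper solutions if one waives normality

`K` is any Hilbertian field, of any characteristic (the hypothesis is that of the frozen statement
S03429), `F₁/K` any finite Galois extension, `α : G → Gal(F₁/K)` any weakly solvable finite
embedding problem, for example any split one. For all large `n` there is a separable
extension `E/K` of degree `n |G|` containing `F₁`, with an isomorphism `Aut(E/K) → G` compatible with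
the restriction to `F₁`. (A proper solution is such an `E` with `n = 1`.) Every intermediate
field of `E/K` is the fixed field of a group of automorphisms of `E` or is contained in `F₁`.
-/

set_option autoImplicit false

namespace Pool.Agent.Results.MP_e9d732_al.NonNormalSolutions

/-- Hilbertian fields, as in the frozen statement. -/
def Hilbertian (K : Type) [Field K] : Prop :=
  ∀ (f : Polynomial (Polynomial K)), f.Monic → Irreducible f →
    (f.map (algebraMap (Polynomial K) (FractionRing (Polynomial K)))).Separable →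
    ∀ g : Polynomial K, g ≠ 0 →
      ∃ a : K, g.eval a ≠ 0 ∧ Irreducible (f.map (Polynomial.evalRingHom a))

/-- The embedding problem given by `F₁/K` and `α : G → Gal(F₁/K)` is weakly solvable: there are a
finite Galois extension `L'/K` containing `F₁` and a homomorphism `s : Gal(L'/K) → G` such that
`α ∘ s` is the restriction to `F₁`. (If `α` has a section, take `L' = F₁` and the section.) -/
def WeaklySolvable (K F₁ G : Type) [Field K] [Field F₁] [Algebra K F₁] [Normal K F₁] [Group G]
    (α : G →* (F₁ ≃ₐ[K] F₁)) : Prop :=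
  ∃ (L' : Type) (_ : Field L') (_ : Algebra K L') (_ : FiniteDimensional K L')
      (_ : IsGalois K L') (_ : Algebra F₁ L') (_ : IsScalarTower K F₁ L')
      (s : (L' ≃ₐ[K] L') →* G), ∀ ρ, α (s ρ) = ρ.restrictNormal F₁

/-- `E`, a field extension of `F₁`, is a solution of degree `d`, not necessarily normal, of the
embedding problem `α : G → Gal(F₁/K)`, in which there are only the necessary intermediate
fields. -/
def IsSolution (K F₁ G : Type) [Field K] [Field F₁] [Algebra K F₁] [Group G]
    (α : G →* (F₁ ≃ₐ[K] F₁)) (d : ℕ) (E : Type) [Field E] [Algebra K E] [Algebra F₁ E] : Prop :=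
  Algebra.IsSeparable K E ∧
  Module.finrank K E = d ∧
  (∃ γ : (E ≃ₐ[K] E) ≃* G, ∀ (σ : E ≃ₐ[K] E) (x : F₁),
    σ (algebraMap F₁ E x) = algebraMap F₁ E (α (γ σ) x)) ∧
  (∀ M : IntermediateField K E,
    (∃ U : Subgroup (E ≃ₐ[K] E), M = IntermediateField.fixedField U) ∨
      ∀ x ∈ M, x ∈ Set.range (algebraMap F₁ E))

end Pool.Agent.Results.MP_e9d732_al.NonNormalSolutions

open Pool.Agent.Results.MP_e9d732_al.NonNormalSolutions in
theorem Pool.Agent.Results.MP_e9d732_al.NonNormalSolutions.result :
    ∀ (K : Type) [Field K], Hilbertian K →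
      ∀ (F₁ G : Type) [Field F₁] [Algebra K F₁] [FiniteDimensional K F₁] [IsGalois K F₁]
        [Group G] [Finite G] (α : G →* (F₁ ≃ₐ[K] F₁)), WeaklySolvable K F₁ G α →
        ∀ n : ℕ, ((3 * Nat.card α.ker + 2).factorial) ^ 3 ≤ n →
          ∃ (E : Type) (_ : Field E) (_ : Algebra K E) (_ : Algebra F₁ E)
            (_ : IsScalarTower K F₁ E), IsSolution K F₁ G α (n * Nat.card G) E := by
  intro K _ hK F₁ G _ _ _ _ _ _ α hw n hn
  obtain ⟨E, i1, i2, i3, i4, i5, i6, i7, γ, h1, h2, h3, -⟩ :=
    Pool.Agent.U689.EP.hil_main K F₁ G α hK hw n hn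
  have h24 : i4 = i2 := Algebra.algebra_ext _ _ fun x =>
    @IsScalarTower.algebraMap_apply K K E _ _ _ _ i2 i4 i5 x
  subst h24
  refine ⟨E, i1, i4, i3, i6, i7, h2, ⟨γ, h1⟩, fun M => (h3 M).imp_right fun h x hx => ?_⟩
  have h5 : IntermediateField.adjoin K (Set.range (algebraMap F₁ E)) ≤
      (IsScalarTower.toAlgHom K F₁ E).fieldRange := by
    rw [IntermediateField.adjoin_le_iff]
    rintro _ ⟨y, rfl⟩
    exact ⟨y, rfl⟩
  obtain ⟨y, hy⟩ := h5 (h hx)
  exact ⟨y, hy⟩
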