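import Mathlib
import Pool.Agent.U301.PB.Hil

/-!
# Embedding problems with second countable profinite groups over Hilbertian fields, solved by
automorphism groups of separable algebraic extensions

`K` is any Hilbertian field, of any characteristic, `F₁/K` a finite Galois extension, `Γ` any second
countable profinite group and `α : Γ → Gal(F₁/K)` a continuous homomorphism.  If the embedding
problem `α` splits or, more generally, is weakly solvable, then there are a separable algebraic
extension `F/K` containing `F₁` and an isomorphism `θ` of topological groups from `Γ` to the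
full automorphism group `Aut(F/K)` with its Krull topology such that `θ g` restricts to `α g` on
`F₁` for all `g` in `Γ`.  (A proper solution is such an `F` which is Galois over `K`.)

For countable `K` no other groups occur: for every algebraic extension `F/K` the group `Aut(F/K)` is
a second countable profinite group.

The proof: let `U_0 ⊇ U_1 ⊇ ...` be open normal subgroups of `Γ` in the kernel of `α` with trivial
intersection, `G_j = Γ/U_j`, `Q_j = (S_3 × S_3)^(G_j) ⋊ G_j`.  By the earlier result
`InfiniteFibrePowers` there is a Galois extension `L/K` containing `F₁` whose group is the group `P`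
of all `(x, ρ)` with `x` in `∏ Q_j ≀ S_(n_j)` such that all coordinates of all `x_j` have the image
`ρ` in `Gal(F₁/K)`.  Let `D` be the group of the `(x, ρ)` in `P` whose `j`-th permutation fixes the
first index for all `j`, and whose components `q_j` in `Q_j` at the first index are compatible: the
images of `q_j` in `G_j` form an element of `Γ`, and the first `S_3`-part of `q_(j+1)` is the pull
back of the second `S_3`-part of `q_j`.  The normalizer in `P` of the kernel `H` of `D → Γ` is `D`,
and `F` is the fixed field of `H`.
-/

set_option autoImplicit false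

namespace Pool.Agent.Results.MP_e9d732_al.ProfiniteAutomorphismSolutions

/-- `K` is Hilbertian, in the words of the frozen statement `S03429`. -/
def Hilbertian (K : Type) [Field K] : Prop :=
  ∀ (f : Polynomial (Polynomial K)), f.Monic → Irreducible f →
    (f.map (algebraMap (Polynomial K) (FractionRing (Polynomial K)))).Separable →
    ∀ g : Polynomial K, g ≠ 0 →
      ∃ a : K, g.eval a ≠ 0 ∧ Irreducible (f.map (Polynomial.evalRingHom a))

/-- The embedding problem `α : Γ → Gal(F₁/K)` splits. -/
def Splits {K F₁ Γ : Type} [Field K] [Field F₁] [Algebra K F₁] [Group Γ]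
    (α : Γ →* (F₁ ≃ₐ[K] F₁)) : Prop :=
  ∃ s : (F₁ ≃ₐ[K] F₁) →* Γ, ∀ ρ, α (s ρ) = ρ

/-- The embedding problem `α : Γ → Gal(F₁/K)` has a weak solution over a finite Galois extension
`L'` of `K` containing `F₁`: a homomorphism `s : Gal(L'/K) → Γ` such that `α ∘ s` is the restriction
to `F₁`. -/
def WeaklySolvable {K F₁ Γ : Type} [Field K] [Field F₁] [Algebra K F₁] [Normal K F₁] [Group Γ]
    (α : Γ →* (F₁ ≃ₐ[K] F₁)) : Prop :=
  ∃ (L' : Type) (_ : Field L') (_ : Algebra K L') (_ : FiniteDimensional K L')
    (_ : IsGalois K L') (_ : Algebra F₁ L') (_ : IsScalarTower K F₁ L')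
    (s : (L' ≃ₐ[K] L') →* Γ), ∀ ρ, α (s ρ) = ρ.restrictNormal F₁

end Pool.Agent.Results.MP_e9d732_al.ProfiniteAutomorphismSolutions

open Pool.Agent.Results.MP_e9d732_al.ProfiniteAutomorphismSolutions in
/-- Split and weakly solvable embedding problems with second countable profinite groups over
Hilbertian fields are solved by automorphism groups of separable algebraic extensions. -/
theorem Pool.Agent.Results.MP_e9d732_al.ProfiniteAutomorphismSolutions.result :
    ∀ (K : Type) [Field K],
      (Hilbertian K → ∀ (F₁ : Type) [Field F₁] [Algebra K F₁] [FiniteDimensional K F₁]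
        [IsGalois K F₁] (Γ : Type) [Group Γ] [TopologicalSpace Γ] [IsTopologicalGroup Γ]
        [CompactSpace Γ] [TotallyDisconnectedSpace Γ] [SecondCountableTopology Γ]
        (α : Γ →* (F₁ ≃ₐ[K] F₁)), Continuous α → Splits α ∨ WeaklySolvable α →
        ∃ (F : Type) (_ : Field F) (_ : Algebra K F) (_ : Algebra F₁ F) (_ : IsScalarTower K F₁ F)
          (_ : Algebra.IsSeparable K F) (θ : Γ ≃ₜ* (F ≃ₐ[K] F)),
          ∀ (g : Γ) (x : F₁), θ g (algebraMap F₁ F x) = algebraMap F₁ F (α g x)) ∧
      (Countable K → ∀ (F : Type) [Field F] [Algebra K F] [Algebra.IsAlgebraic K F],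
        CompactSpace (F ≃ₐ[K] F) ∧ TotallyDisconnectedSpace (F ≃ₐ[K] F) ∧
          SecondCountableTopology (F ≃ₐ[K] F)) := by
  intro K _
  constructor
  · intro hK F₁ _ _ _ _ Γ _ _ _ _ _ _ α hα hw
    refine Pool.Agent.U301.PA.hilb_main hK F₁ Γ α hα ?_
    rcases hw with ⟨s, hs⟩ | hw
    · refine ⟨F₁, inferInstance, inferInstance, inferInstance, inferInstance, inferInstance,
        inferInstance, s, fun ρ => ?_⟩
      rw [hs]
      ext x
      exact (AlgEquiv.restrictNormal_commutes ρ F₁ x).symm
    · exact hw
  · intro _ F _ _ _
    have hc : CompactSpace (F ≃ₐ[K] F) := Pool.Agent.U301.PA.compact_aut_all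
    have h1 : Countable F := by
      rw [← Cardinal.mk_le_aleph0_iff]
      refine (Algebra.IsAlgebraic.cardinalMk_le_max K F).trans (max_le ?_ le_rfl)
      exact Cardinal.mk_le_aleph0
    exact ⟨hc, inferInstance, Pool.Agent.U301.PA.secondCountable_aut⟩
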