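import Mathlib
import Pool.Agent.U975.RG.Main

/-!
# Split embedding problems with restricted new ramification

Let `F₁/K` be a finite Galois extension of any field `K` (Hilbertian or not). If all finite split
embedding problems `α : G → Gal(F₁/K)` have proper solutions, then they all have proper solutions `F`
with strongly restricted new ramification, for all places of `K` at once:

* `F/F₁` is unramified at the infinite places (no new real ramification);
* for every Dedekind domain `A` with fraction field `K` and every prime `P` of the integral closure
  of `A` in `F`: if a prime `l`, different from the residue characteristic, divides the order of the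
  inertia group of `P` in `Gal(F/F₁)`, then the residue field of `P` contains the `l ^ k`-th roots of
  unity, and the residue field of `A` at `P ∩ A` is infinite or has more than `b` elements (`k` and
  `b` are arbitrary).

So, for example if `K` is a number field, there is no new tame ramification at the primes of norm at
most `b`: the inertia groups in `Gal(F/F₁)` are `p`-groups there, and trivial if `p` does not divide
the order of the kernel of `α`.

The proof: every split extension `α` of finite groups is a quotient of a split extension of a finite
group `X` by a finite quotient of a free group on which `Gal(F₁/K)` acts by permutations of the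
generators, such that the characters of order `l` of all subgroups of `ker α` lift to characters of
order `l ^ k` of their inverse images in `X` (subgroups of free groups are free).
-/

set_option autoImplicit false

open NumberField

namespace Pool.Agent.Results.MP_e9d732_al.RestrictedRamification

/-- The homomorphism `α : G → Gal(F₁/K)` has a section (so it is surjective). -/
def IsSplit {K F₁ G : Type} [Field K] [Field F₁] [Algebra K F₁] [Group G]
    (α : G →* Gal(F₁/K)) : Prop :=
  ∃ s : Gal(F₁/K) →* G, ∀ x, α (s x) = x

/-- The extension `F` of `F₁` is a proper solution of the embedding problem `α : G → Gal(F₁/K)`: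
it is a finite Galois extension of `K` with an isomorphism of its Galois group with `G` which
translates `α` into the restriction to `F₁`. -/
def IsSolution (K F₁ F G : Type) [Field K] [Field F₁] [Field F] [Algebra K F₁] [Normal K F₁]
    [Algebra K F] [Algebra F₁ F] [IsScalarTower K F₁ F] [Group G] (α : G →* Gal(F₁/K)) : Prop :=
  FiniteDimensional K F ∧ IsGalois K F ∧
    ∃ γ : Gal(F/K) ≃* G, ∀ σ : Gal(F/K), α (γ σ) = σ.restrictNormal F₁

/-- The inertia group in `Gal(F/F₁)` of an ideal `P` of the integral closure of `A` in `F`: the group
of all automorphisms of `F/K` which are trivial on `F₁` and act trivially modulo `P`. -/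
noncomputable def inertiaOver (K F₁ F : Type) [Field K] [Field F₁] [Field F] [Algebra K F₁]
    [Normal K F₁] [Algebra K F] [Algebra F₁ F] [IsScalarTower K F₁ F] {A : Type} [CommRing A]
    [Algebra A K] [Algebra A F] [IsScalarTower A K F] (P : Ideal (integralClosure A F)) :
    Subgroup Gal(F/K) :=
  P.inertia Gal(F/K) ⊓ (AlgEquiv.restrictNormalHom (F := K) (K₁ := F) F₁).ker

/-- The ramification of `F/F₁` is restricted: `F/F₁` is unramified at the infinite places of `F`; and
for every Dedekind domain `A` with fraction field `K`, every nonzero maximal ideal `P` of the integral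
closure of `A` in `F` and every prime number `l` that is not in `P` and divides the order of the
inertia group of `P` in `Gal(F/F₁)`: the residue field at `P` contains a primitive `l ^ k`-th root of
unity, and if the residue field of `A` at `P ∩ A` is finite, it has more than `b` elements. -/
def Restricted (K F₁ F : Type) [Field K] [Field F₁] [Field F] [Algebra K F₁] [Normal K F₁]
    [Algebra K F] [Algebra F₁ F] [IsScalarTower K F₁ F] (k b : ℕ) : Prop :=
  (∀ w : InfinitePlace F, w.IsUnramified F₁) ∧
  ∀ (A : Type) [CommRing A] [IsDedekindDomain A] [Algebra A K] [IsFractionRing A K]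
    [Algebra A F] [IsScalarTower A K F] (P : Ideal (integralClosure A F)), P.IsMaximal → P ≠ ⊥ →
    ∀ l : ℕ, l.Prime → (l : integralClosure A F) ∉ P → l ∣ Nat.card (inertiaOver K F₁ F P) →
      (∃ ζ : integralClosure A F ⧸ P, IsPrimitiveRoot ζ (l ^ k)) ∧
      (Finite (A ⧸ P.under A) → b < Nat.card (A ⧸ P.under A))

end Pool.Agent.Results.MP_e9d732_al.RestrictedRamification

open Pool.Agent.Results.MP_e9d732_al.RestrictedRamification in
/-- Let `F₁/K` be a finite Galois extension of fields. All finite split embedding problems
`α : G → Gal(F₁/K)` have proper solutions if and only if, for all `k` and `b`, they have proper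
solutions with restricted ramification. -/
theorem Pool.Agent.Results.MP_e9d732_al.RestrictedRamification.result
    (K F₁ : Type) [Field K] [Field F₁] [Algebra K F₁] [FiniteDimensional K F₁] [IsGalois K F₁] :
    (∀ (G : Type) [Group G] [Finite G] (α : G →* Gal(F₁/K)), IsSplit α →
      ∃ (F : Type) (_ : Field F) (_ : Algebra K F) (_ : Algebra F₁ F) (_ : IsScalarTower K F₁ F),
        IsSolution K F₁ F G α) ↔
    ∀ (G : Type) [Group G] [Finite G] (α : G →* Gal(F₁/K)), IsSplit α → ∀ k b : ℕ,
      ∃ (F : Type) (_ : Field F) (_ : Algebra K F) (_ : Algebra F₁ F) (_ : IsScalarTower K F₁ F),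
        IsSolution K F₁ F G α ∧ Restricted K F₁ F k b := by
  constructor
  · intro h G _ _ α hα k b
    obtain ⟨s, hs⟩ := hα
    obtain ⟨F, i1, i2, i3, i4, h1, h2, h3, h4, h5⟩ :=
      Pool.Agent.U975.RG.exists_restricted (fun G _ _ α _ hs => h G α hs) G α
        (fun x => ⟨s x, hs x⟩) ⟨s, hs⟩ k b
    exact ⟨F, i1, i2, i3, i4, ⟨h1, h2, h3⟩, h4, h5⟩
  · intro h G _ _ α hα
    obtain ⟨F, i1, i2, i3, i4, h1, -⟩ := h G α hα 0 0
    exact ⟨F, i1, i2, i3, i4, h1⟩
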